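import Mathlib

/-!
# Perfect-information wins in the compact-open `k`-cover game

The topological sum `X` of the unit interval and of the one-point Lindelöfication of an uncountable
discrete space is a normal Hausdorff space such that One wins the game in which One plays nonempty
compact sets, Two answers with open supersets and One wins if Two's sets form a `k`-cover; One has
no winning predetermined strategy in this game; and One has no winning strategy in the finite-open
game on `X`.
-/

set_option autoImplicit false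

namespace Pool.Agent.Results.MP_c6d0b8_gt.IntervalAndLindelof

open Set Topology MeasureTheory

/-- The first `n` moves of Two. -/
def hist {X : Type} (U : ℕ → Set X) (n : ℕ) : List (Set X) := List.ofFn fun i : Fin n => U i

/-- One has a winning strategy in the following game of length `ω`.  In round `n` One picks a set
`A_n` with `Legal A_n` and Two answers with an open set `U_n ⊇ A_n`; One wins the play if
`Win (U_0, U_1, …)`.  A strategy `σ` for One gives the move of One in round `n` from the earlier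
moves `U_0, …, U_{n-1}` of Two (the earlier moves of One are then known as well).  It has to give
legal moves at the positions that are reached by legal moves of Two, and to win every play in which
Two plays legally. -/
def OneWins (X : Type) [TopologicalSpace X] (Legal : Set X → Prop)
    (Win : (ℕ → Set X) → Prop) : Prop :=
  ∃ σ : List (Set X) → Set X, ∀ U : ℕ → Set X,
    (∀ n, (∀ m < n, IsOpen (U m) ∧ σ (hist U m) ⊆ U m) → Legal (σ (hist U n))) ∧
    ((∀ n, IsOpen (U n) ∧ σ (hist U n) ⊆ U n) → Win U)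

/-- One has a winning predetermined strategy in the same game: a fixed sequence of legal moves that
wins against all legal answers of Two. -/
def OnePreWins (X : Type) [TopologicalSpace X] (Legal : Set X → Prop)
    (Win : (ℕ → Set X) → Prop) : Prop :=
  ∃ A : ℕ → Set X, (∀ n, Legal (A n)) ∧
    ∀ U : ℕ → Set X, (∀ n, IsOpen (U n) ∧ A n ⊆ U n) → Win U

/-- The moves of One in the compact-open game: the nonempty compact sets. -/
def CompactMove (X : Type) [TopologicalSpace X] (A : Set X) : Prop := A.Nonempty ∧ IsCompact A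

/-- One wins the `k`-cover game if every compact set lies in some move of Two. -/
def KCover (X : Type) [TopologicalSpace X] (U : ℕ → Set X) : Prop :=
  ∀ K : Set X, IsCompact K → ∃ n, K ⊆ U n

/-- `I ↑ G₁(𝒩[K(X)], ¬𝒦_X)`. -/
def WinsK (X : Type) [TopologicalSpace X] : Prop := OneWins X (CompactMove X) (KCover X)

/-- One has a winning predetermined strategy in `G₁(𝒩[K(X)], ¬𝒦_X)`. -/
def PreWinsK (X : Type) [TopologicalSpace X] : Prop := OnePreWins X (CompactMove X) (KCover X)

/-- One has a winning strategy in the finite-open game on `X`. -/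
def WinsFiniteOpen (X : Type) [TopologicalSpace X] : Prop :=
  OneWins X Set.Finite fun U => ⋃ n, U n = univ

/-- The points of the one-point Lindelöfication of the discrete space `ℝ`. -/
inductive Lind : Type
  /-- the extra point -/
  | infty : Lind
  /-- the isolated points -/
  | pt (d : ℝ) : Lind

open Lind

/-- A set is open if it misses the point `infty` or if it is cocountable. -/
instance : TopologicalSpace Lind where
  IsOpen U := infty ∈ U → Uᶜ.Countable
  isOpen_univ := fun _ => by simp
  isOpen_inter := by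
    intro s t hs ht h
    rw [compl_inter]
    exact (hs h.1).union (ht h.2)
  isOpen_sUnion := by
    rintro S hS ⟨t, ht, hn⟩
    exact (hS t ht hn).mono (compl_subset_compl.2 (subset_sUnion_of_mem ht))

lemma pt_ne (d : ℝ) : pt d ≠ infty := fun h => by cases h

lemma pt_inj : Function.Injective pt := fun a b h => by cases h; rfl

lemma cases_pt (x : Lind) : x = infty ∨ ∃ d, x = pt d := by
  cases x with
  | infty => exact Or.inl rfl
  | pt d => exact Or.inr ⟨d, rfl⟩

lemma isOpen_iff (U : Set Lind) : IsOpen U ↔ (infty ∈ U → Uᶜ.Countable) := Iff.rfl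

lemma isOpen_of_infty {U : Set Lind} (h : infty ∉ U) : IsOpen U :=
  (isOpen_iff U).2 fun h' => absurd h' h

lemma isClosed_of_infty {U : Set Lind} (h : infty ∈ U) : IsClosed U :=
  ⟨isOpen_of_infty (fun h' => h' h)⟩

lemma isClosed_of_countable {U : Set Lind} (h : U.Countable) : IsClosed U :=
  ⟨(isOpen_iff _).2 fun _ => by rwa [compl_compl]⟩

instance : T1Space Lind := ⟨fun _ => isClosed_of_countable (countable_singleton _)⟩

lemma separate {s t : Set Lind} (hs : IsClosed s) (hst : Disjoint s t) (h : infty ∉ s) :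
    SeparatedNhds s t :=
  ⟨s, sᶜ, isOpen_of_infty h, hs.isOpen_compl, subset_rfl, hst.symm.subset_compl_right,
    disjoint_compl_right⟩

instance : NormalSpace Lind := ⟨fun s t hs ht hst => by
  by_cases h : infty ∈ s
  · exact (separate ht hst.symm (disjoint_left.1 hst h)).symm
  · exact separate hs hst h⟩

/-- The example. -/
abbrev Ex : Type := unitInterval ⊕ Lind

instance : NormalSpace Ex := ⟨fun s t hs ht hst => by
  have h1 : SeparatedNhds (Sum.inl ⁻¹' s : Set unitInterval) (Sum.inl ⁻¹' t) :=
    normal_separation (hs.preimage continuous_inl) (ht.preimage continuous_inl)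
      (hst.preimage _)
  have h2 : SeparatedNhds (Sum.inr ⁻¹' s : Set Lind) (Sum.inr ⁻¹' t) :=
    normal_separation (hs.preimage continuous_inr) (ht.preimage continuous_inr)
      (hst.preimage _)
  obtain ⟨u1, v1, hu1, hv1, hsu1, htv1, huv1⟩ := h1
  obtain ⟨u2, v2, hu2, hv2, hsu2, htv2, huv2⟩ := h2
  refine ⟨Sum.inl '' u1 ∪ Sum.inr '' u2, Sum.inl '' v1 ∪ Sum.inr '' v2, ?_, ?_, ?_, ?_, ?_⟩
  · exact (isOpenMap_inl _ hu1).union (isOpenMap_inr _ hu2)
  · exact (isOpenMap_inl _ hv1).union (isOpenMap_inr _ hv2)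
  · rintro (x | x) hx
    · exact Or.inl ⟨x, hsu1 hx, rfl⟩
    · exact Or.inr ⟨x, hsu2 hx, rfl⟩
  · rintro (x | x) hx
    · exact Or.inl ⟨x, htv1 hx, rfl⟩
    · exact Or.inr ⟨x, htv2 hx, rfl⟩
  · rw [disjoint_left]
    rintro x (⟨y, hy, rfl⟩ | ⟨y, hy, rfl⟩) (⟨z, hz, hzx⟩ | ⟨z, hz, hzx⟩)
    · rw [Sum.inl_injective hzx] at hz
      exact disjoint_left.1 huv1 hy hz
    · cases hzx
    · cases hzx
    · rw [Sum.inr_injective hzx] at hz
      exact disjoint_left.1 huv2 hy hz⟩

instance : T1Space Ex := ⟨by
  rintro (x | x) <;> simp⟩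

/-- Compact subsets of `Lind` are finite. -/
lemma finite_of_isCompact {K : Set Lind} (hK : IsCompact K) : K.Finite := by
  by_contra hinf
  have h1 : {d : ℝ | pt d ∈ K}.Infinite := by
    intro hf
    refine hinf (((hf.image pt).insert infty).subset ?_)
    intro x hx
    rcases cases_pt x with rfl | ⟨d, rfl⟩
    · exact Or.inl rfl
    · exact Or.inr ⟨d, hx, rfl⟩
  obtain ⟨E, hEK, hEinf, hEc⟩ : ∃ E : Set ℝ, E ⊆ {d : ℝ | pt d ∈ K} ∧ E.Infinite ∧ E.Countable := by
    refine ⟨range fun n => (h1.natEmbedding _ n : ℝ), ?_, ?_, countable_range _⟩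
    · rintro _ ⟨n, rfl⟩
      exact (h1.natEmbedding _ n).2
    · exact infinite_range_of_injective
        (Subtype.val_injective.comp (h1.natEmbedding _).injective)
  have hcl : IsClosed (pt '' E) := isClosed_of_countable (hEc.image _)
  have hcomp : IsCompact (pt '' E) := hK.of_isClosed_subset hcl (by
    rintro _ ⟨d, hd, rfl⟩
    exact hEK hd)
  have hfin : (pt '' E).Finite := by
    -- cover by singletons
    obtain ⟨t, ht⟩ := hcomp.elim_finite_subcover (fun d : ℝ => ({pt d} : Set Lind))
      (fun d => isOpen_of_infty fun h => pt_ne d (mem_singleton_iff.1 h).symm)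
      (by rintro _ ⟨d, hd, rfl⟩; exact mem_iUnion.2 ⟨d, rfl⟩)
    refine Finite.subset ?_ ht
    exact t.finite_toSet.biUnion fun _ _ => finite_singleton _
  exact hEinf (hfin.of_finite_image pt_inj.injOn)

/-- An enumeration of (a superset of) the isolated points outside an open neighbourhood of the point
at infinity. -/
lemma exists_enum (U : Set Ex) : ∃ z : ℕ → ℝ,
    IsOpen U → Sum.inr infty ∈ U → ∀ d, Sum.inr (pt d) ∉ U → ∃ i, z i = d := by
  by_cases h : IsOpen U ∧ Sum.inr infty ∈ U
  · have h1 : IsOpen (Sum.inr ⁻¹' U : Set Lind) := h.1.preimage continuous_inr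
    have h2 := (isOpen_iff _).1 h1 h.2
    have h3 : {d : ℝ | (Sum.inr (pt d) : Ex) ∉ U}.Countable :=
      h2.preimage_of_injOn (f := pt) pt_inj.injOn
    obtain ⟨z, hz⟩ := countable_iff_exists_subset_range.1 h3
    exact ⟨z, fun _ _ d hd => hz hd⟩
  · exact ⟨fun _ => 0, fun h1 h2 => absurd ⟨h1, h2⟩ h⟩

/-- The enumeration. -/
noncomputable def enum (U : Set Ex) : ℕ → ℝ := (exists_enum U).choose

/-- One's winning strategy in the compact-open game. -/
noncomputable def strat (l : List (Set Ex)) : Set Ex :=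
  range (Sum.inl : unitInterval → Ex) ∪ {Sum.inr infty} ∪
    ⋃ U ∈ {U | U ∈ l}, ⋃ i ∈ Iio l.length, {Sum.inr (pt (enum U i))}

lemma compactMove_strat (l : List (Set Ex)) : CompactMove Ex (strat l) := by
  refine ⟨⟨Sum.inr infty, Or.inl (Or.inr rfl)⟩, ?_⟩
  refine ((isCompact_range continuous_inl).union isCompact_singleton).union ?_
  refine Finite.isCompact ?_
  exact (List.finite_toSet l).biUnion fun U _ =>
    (finite_Iio _).biUnion fun i _ => finite_singleton _

lemma mem_hist {X : Type} (U : ℕ → Set X) {j n : ℕ} (h : j < n) : U j ∈ hist U n := by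
  rw [hist, List.mem_ofFn]
  exact ⟨⟨j, h⟩, rfl⟩

lemma length_hist {X : Type} (U : ℕ → Set X) (n : ℕ) : (hist U n).length = n := by
  rw [hist, List.length_ofFn]

theorem winsK : WinsK Ex := by
  refine ⟨strat, fun U => ⟨fun n _ => compactMove_strat _, fun hU => ?_⟩⟩
  -- every point of `Lind` is in almost all moves of Two
  have hinf : ∀ n, Sum.inr infty ∈ U n := fun n => (hU n).2 (Or.inl (Or.inr rfl))
  have hpt : ∀ p : Lind, ∃ N, ∀ n ≥ N, Sum.inr p ∈ U n := by
    intro p
    rcases cases_pt p with rfl | ⟨d, rfl⟩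
    · exact ⟨0, fun n _ => hinf n⟩
    · by_cases h : ∀ n, Sum.inr (pt d) ∈ U n
      · exact ⟨0, fun n _ => h n⟩
      · push Not at h
        obtain ⟨j, hj⟩ := h
        obtain ⟨i, hi⟩ := (exists_enum (U j)).choose_spec (hU j).1 (hinf j) d hj
        refine ⟨max i j + 1, fun n hn => (hU n).2 (Or.inr ?_)⟩
        have h1 : i < n := lt_of_le_of_lt (le_max_left i j) hn
        have h2 : j < n := lt_of_le_of_lt (le_max_right i j) hn
        refine mem_biUnion (mem_hist U h2) ?_
        refine mem_biUnion (show i ∈ Iio (hist U n).length by rw [length_hist]; exact h1) ?_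
        rw [mem_singleton_iff, enum, hi]
  intro K hK
  have hF : (Sum.inr ⁻¹' K : Set Lind).Finite :=
    finite_of_isCompact (IsClosedEmbedding.inr.isCompact_preimage hK)
  choose N hN using hpt
  obtain ⟨M, hM⟩ := (hF.image N).bddAbove
  refine ⟨M, ?_⟩
  rintro (x | x) hx
  · exact (hU M).2 (Or.inl (Or.inl ⟨x, rfl⟩))
  · exact hN x M (hM ⟨x, hx, rfl⟩)

theorem not_preWinsK : ¬ PreWinsK Ex := by
  rintro ⟨A, hA, hwin⟩
  have h1 : ∀ n, (Sum.inr ⁻¹' (A n) : Set Lind).Finite := fun n =>
    finite_of_isCompact (IsClosedEmbedding.inr.isCompact_preimage (hA n).2)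
  have h2 : (⋃ n, pt ⁻¹' (Sum.inr ⁻¹' (A n) : Set Lind)).Countable :=
    countable_iUnion fun n => ((h1 n).preimage pt_inj.injOn).countable
  obtain ⟨d, hd⟩ : ∃ d : ℝ, d ∉ ⋃ n, pt ⁻¹' (Sum.inr ⁻¹' (A n) : Set Lind) := by
    by_contra hcon
    push Not at hcon
    have h3 : (univ : Set ℝ).Countable := h2.mono fun x _ => hcon x
    exact not_countable_univ h3
  have hd' : ∀ n, (Sum.inr (pt d) : Ex) ∉ A n := fun n h => hd (mem_iUnion.2 ⟨n, h⟩)
  obtain ⟨n, hn⟩ := hwin (fun _ => {Sum.inr (pt d)}ᶜ)
    (fun n => ⟨isOpen_compl_singleton, fun x hx h => hd' n (by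
      rw [mem_singleton_iff] at h; rw [← h]; exact hx)⟩)
    {Sum.inr (pt d)} isCompact_singleton
  exact hn rfl rfl

/-- The history of the play in which Two answers by the rule `τ`. -/
def play {X : Type} (τ : List (Set X) → Set X) : ℕ → List (Set X)
  | 0 => []
  | n + 1 => play τ n ++ [τ (play τ n)]

lemma hist_play {X : Type} (τ : List (Set X) → Set X) (n : ℕ) :
    hist (fun m => τ (play τ m)) n = play τ n := by
  induction n with
  | zero => simp [hist, play]
  | succ n ih =>
    rw [play, hist, List.ofFn_succ_last]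
    have ih' : (List.ofFn fun i : Fin n => τ (play τ i)) = play τ n := ih
    simp [ih']

/-- The finite sets have open supersets of small measure. -/
lemma exists_small (F : Set Ex) (n : ℕ) : ∃ O : Set ℝ, IsOpen O ∧
    (F.Finite → (Subtype.val '' (Sum.inl ⁻¹' F : Set unitInterval) ⊆ O ∧
      volume O ≤ ENNReal.ofReal ((1 / 2 : ℝ) ^ (n + 2)))) := by
  by_cases hF : F.Finite
  · have h1 : (Subtype.val '' (Sum.inl ⁻¹' F : Set unitInterval) : Set ℝ).Finite :=
      (hF.preimage Sum.inl_injective.injOn).image _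
    have h2 : volume (Subtype.val '' (Sum.inl ⁻¹' F : Set unitInterval) : Set ℝ) <
        ENNReal.ofReal ((1 / 2 : ℝ) ^ (n + 2)) := by
      rw [h1.measure_zero]
      exact ENNReal.ofReal_pos.2 (by positivity)
    obtain ⟨O, hO1, hO2, hO3⟩ := Set.exists_isOpen_lt_of_lt _ _ h2
    exact ⟨O, hO2, fun _ => ⟨hO1, hO3.le⟩⟩
  · exact ⟨univ, isOpen_univ, fun h => absurd h hF⟩

theorem not_winsFiniteOpen : ¬ WinsFiniteOpen Ex := by
  rintro ⟨σ, hσ⟩
  choose O hO1 hO2 using exists_small
  let V : Set Ex → ℕ → Set Ex := fun F n =>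
    Sum.inl '' (Subtype.val ⁻¹' (O F n)) ∪ range (Sum.inr : Lind → Ex)
  let τ : List (Set Ex) → Set Ex := fun l => V (σ l) l.length
  let U : ℕ → Set Ex := fun n => τ (play τ n)
  have hlen : ∀ n, (play τ n).length = n := fun n => by
    rw [← hist_play, length_hist]
  have hhist : ∀ n, hist U n = play τ n := fun n => hist_play τ n
  have hopen : ∀ n, IsOpen (U n) := fun n =>
    (isOpenMap_inl _ ((hO1 _ _).preimage continuous_subtype_val)).union isOpen_range_inr
  have hsub : ∀ n, (σ (hist U n)).Finite → σ (hist U n) ⊆ U n := by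
    intro n hf
    rintro (x | x) hx
    · refine Or.inl ⟨x, ?_, rfl⟩
      rw [hhist] at hx hf
      exact (hO2 _ (play τ n).length hf).1 ⟨x, hx, rfl⟩
    · exact Or.inr ⟨x, rfl⟩
  have hfin : ∀ n, (σ (hist U n)).Finite := by
    intro n
    induction n using Nat.strong_induction_on with
    | _ n ih => exact (hσ U).1 n fun m hm => ⟨hopen m, hsub m (ih m hm)⟩
  have hwin : ⋃ n, U n = univ := (hσ U).2 fun n => ⟨hopen n, hsub n (hfin n)⟩
  have hcover : Icc (0 : ℝ) 1 ⊆ ⋃ n, O (σ (play τ n)) n := by
    intro x hx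
    have h : (Sum.inl (⟨x, hx⟩ : unitInterval) : Ex) ∈ ⋃ n, U n := by rw [hwin]; trivial
    obtain ⟨n, hn⟩ := mem_iUnion.1 h
    rcases hn with ⟨y, hy, hyx⟩ | ⟨y, hyx⟩
    · have hyx' : y = ⟨x, hx⟩ := Sum.inl_injective hyx
      subst hyx'
      refine mem_iUnion.2 ⟨n, ?_⟩
      have hy' : x ∈ O (σ (play τ n)) (play τ n).length := hy
      rwa [hlen] at hy'
    · exact absurd hyx (by simp)
  have hvol : volume (Icc (0 : ℝ) 1) ≤ ∑' n, volume (O (σ (play τ n)) n) :=
    (measure_mono hcover).trans (measure_iUnion_le _)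
  have hbound : ∑' n, volume (O (σ (play τ n)) n) ≤
      ∑' n : ℕ, ENNReal.ofReal ((1 / 2 : ℝ) ^ (n + 2)) :=
    ENNReal.tsum_le_tsum fun n => (hO2 _ n (by rw [← hhist]; exact hfin n)).2
  have hsum : ∑' n : ℕ, ENNReal.ofReal ((1 / 2 : ℝ) ^ (n + 2)) = ENNReal.ofReal (1 / 2) := by
    have h0 : ∀ n : ℕ, (1 / 2 : ℝ) ^ (n + 2) = 1 / 4 * (1 / 2) ^ n := fun n => by
      rw [pow_add]; ring
    simp_rw [h0]
    rw [← ENNReal.ofReal_tsum_of_nonneg (fun n => by positivity)
      ((summable_geometric_of_lt_one (by norm_num) (by norm_num)).mul_left _), tsum_mul_left,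
      tsum_geometric_of_lt_one (by norm_num) (by norm_num)]
    norm_num
  have h3 := hvol.trans (hbound.trans_eq hsum)
  rw [Real.volume_Icc, ENNReal.ofReal_le_ofReal_iff (by norm_num)] at h3
  norm_num at h3

/-- **Main theorem.**  There is a normal Hausdorff space `X` such that One has a winning strategy in
`G₁(𝒩[K(X)], ¬𝒦_X)`, One has no winning strategy in the finite-open game on `X`, and One has no
winning predetermined strategy in `G₁(𝒩[K(X)], ¬𝒦_X)`. -/
theorem result : ∃ (X : Type) (_ : TopologicalSpace X), T4Space X ∧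
    WinsK X ∧ ¬ WinsFiniteOpen X ∧ ¬ PreWinsK X :=
  ⟨Ex, inferInstance, inferInstance, winsK, not_winsFiniteOpen, not_preWinsK⟩

end Pool.Agent.Results.MP_c6d0b8_gt.IntervalAndLindelof
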